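import Pool.Agent.Helper56.TOF.Goals
import Mathlib

set_option autoImplicit false

open Set Filter Topology MeasureTheory

open scoped ContDiff

namespace Pool.Agent.Helper7.TOF

open Pool.Agent.Helper56.TOF Pool.Agent.Helper56.RZ Pool.Agent.Helper30.CIR

lemma aesm_sum (ν : Measure ℝ) (b : ℝ) (hν : ∀ᵐ al ∂ν, al ∈ Icc (1 : ℝ) b) (n : ℕ)
    (g : ℕ → ℝ → ℝ) (hg : ∀ k, ContinuousOn (g k) (Ioi 0)) :
    AEStronglyMeasurable (fun al : ℝ => ∑ k ∈ Finset.range ⌊al * n⌋₊, Real.log (g k al)) ν := by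
  have hres : ν.restrict (Ioi 0) = ν := by
    apply Measure.restrict_eq_self_of_ae_mem
    filter_upwards [hν] with al hal
    exact lt_of_lt_of_le one_pos hal.1
  have h1 : ∀ k, AEMeasurable (g k) ν := by
    intro k
    have := (hg k).aemeasurable (μ := ν) measurableSet_Ioi
    rwa [hres] at this
  have h2 : AEMeasurable (fun al => ∑ k ∈ Finset.range ⌊b * n⌋₊,
      {al : ℝ | k < ⌊al * n⌋₊}.indicator (fun al => Real.log (g k al)) al) ν := by
    apply Finset.aemeasurable_fun_sum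
    intro k _
    apply AEMeasurable.indicator
    · exact Real.measurable_log.comp_aemeasurable (h1 k)
    · exact measurableSet_lt measurable_const
        (Nat.measurable_floor.comp (measurable_id.mul_const _))
  refine (h2.congr ?_).aestronglyMeasurable
  filter_upwards [hν] with al hal
  have hle : ⌊al * n⌋₊ ≤ ⌊b * n⌋₊ :=
    Nat.floor_le_floor (mul_le_mul_of_nonneg_right hal.2 (Nat.cast_nonneg n))
  have hfil : (Finset.range ⌊b * n⌋₊).filter (fun k => k < ⌊al * n⌋₊) =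
      Finset.range ⌊al * n⌋₊ := by
    ext k
    simp only [Finset.mem_filter, Finset.mem_range]
    omega
  rw [← hfil, Finset.sum_filter]
  apply Finset.sum_congr rfl
  intro k _
  simp [indicator]

lemma integrable_of_cont (ν : Measure ℝ) [IsFiniteMeasure ν] (b : ℝ)
    (hν : ∀ᵐ al ∂ν, al ∈ Icc (1 : ℝ) b) (f : ℝ → ℝ) (hf : ContinuousOn f (Ioi 0)) :
    Integrable f ν := by
  have hres : ν.restrict (Icc 1 b) = ν := Measure.restrict_eq_self_of_ae_mem hν
  have : IntegrableOn f (Icc 1 b) ν :=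
    (hf.mono (fun x hx => lt_of_lt_of_le one_pos hx.1)).integrableOn_compact isCompact_Icc
  rwa [IntegrableOn, hres] at this

lemma integral_le_of_close (ν : Measure ℝ) [IsProbabilityMeasure ν] (F L : ℝ → ℝ) (D : ℝ)
    (hF : AEStronglyMeasurable F ν) (hL : Integrable L ν)
    (h : ∀ᵐ al ∂ν, |F al - L al| ≤ D) : ∫ al, F al ∂ν ≤ ∫ al, L al ∂ν + D := by
  have hd : Integrable (fun al => F al - L al) ν := by
    refine Integrable.mono' (integrable_const D) (hF.sub hL.aestronglyMeasurable) ?_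
    simpa [Real.norm_eq_abs] using h
  have hFi : Integrable F ν := by
    have := hd.add hL
    refine this.congr ?_
    filter_upwards with al
    simp
  have : ∫ al, F al ∂ν ≤ ∫ al, (L al + D) ∂ν := by
    apply integral_mono_ae hFi (hL.add (integrable_const D))
    filter_upwards [h] with al hal
    have h2 := (abs_le.mp hal).2
    simp only [Pi.add_apply]
    linarith
  rw [integral_add hL (integrable_const D)] at this
  simpa using this

lemma log_cont (q : ℕ) (a c : ℕ → ℝ) (hc : ∀ i, 0 ≤ c i ∧ c i ≤ 1 / 10)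
    (hcont : ∀ i, ContinuousOn (ww q a c i) (Ioi 0)) (hn : ∀ i, ∀ al > 0, ‖ww q a c i al‖ = 1)
    (S : Finset ℕ) :
    ContinuousOn (fun al => ∑ i ∈ S, Real.log ‖1 + (c i : ℂ) * ww q a c i al‖) (Ioi 0) := by
  apply continuousOn_finsetSum
  intro i _
  apply ContinuousOn.log
  · exact (continuousOn_const.add (continuousOn_const.mul (hcont i))).norm
  · intro al hal
    have h1 : ‖(c i : ℂ) * ww q a c i al‖ ≤ 1 / 10 := by
      rw [norm_mul, hn i al hal, mul_one, Complex.norm_real, Real.norm_eq_abs,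
        abs_of_nonneg (hc i).1]
      exact (hc i).2
    have h2 : ‖(1 : ℂ)‖ - ‖(c i : ℂ) * ww q a c i al‖ ≤ ‖1 + (c i : ℂ) * ww q a c i al‖ := by
      have := norm_sub_norm_le (1 : ℂ) (-((c i : ℂ) * ww q a c i al))
      simpa using this
    rw [norm_one] at h2
    have : 0 < ‖1 + (c i : ℂ) * ww q a c i al‖ := by linarith
    exact this.ne'

/-- the mean of `Lam` -/
lemma mean_lam (hHO : StmtHO2) (hNU : StmtNU) (q r : ℕ) (a c : ℕ → ℝ) (h : ℝ) (hq : 1 ≤ q)
    (ha0 : 3 ≤ a 0) (hgap : ∀ i, a i + 7 ≤ a (i + 1)) (hc : ∀ i, 0 ≤ c i ∧ c i ≤ 1 / 10)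
    (hh : 0 < h) (S : Finset ℕ) :
    Integrable (fun al => Lam q a c al S) (nu h (r + 1)) ∧
    ∫ al, Lam q a c al S ∂(nu h (r + 1)) ≤
      -(∑ i ∈ S, c i ^ 2) + 4 * (∑ i ∈ S, c i) * (1 / (9 * q * h)) ^ (r + 1) := by
  obtain ⟨hcont, hn, hmean⟩ := hHO q a c (1 / 10) hq ha0 hgap hc le_rfl
  obtain ⟨hprob, hsupp, hint⟩ := hNU h (r + 1) hh
  have := hprob
  set G : ℝ → ℝ := fun al => ∑ i ∈ S, Real.log ‖1 + (c i : ℂ) * ww q a c i al‖ with hG
  have hGc : ContinuousOn G (Ioi 0) := log_cont q a c hc hcont hn S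
  have hGi : Integrable G (nu h (r + 1)) := integrable_of_cont _ _ hsupp G hGc
  have hGm := hmean h (r + 1) S hh
  rw [← hG, ← hint G hGc] at hGm
  have hL : (fun al => Lam q a c al S) =
      fun al => (∑ i ∈ S, Real.log (1 - c i ^ 2)) - 2 * G al := by
    funext al
    simp only [Pool.Agent.Helper56.TOF.Lam, hG, Finset.sum_sub_distrib, Finset.mul_sum]
  refine ⟨?_, ?_⟩
  · rw [hL]
    exact (integrable_const _).sub (hGi.const_mul 2)
  · rw [hL, integral_sub (integrable_const _) (hGi.const_mul 2), integral_const_mul]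
    simp only [integral_const, probReal_univ, smul_eq_mul, one_mul]
    have h1 : ∑ i ∈ S, Real.log (1 - c i ^ 2) ≤ -(∑ i ∈ S, c i ^ 2) := by
      rw [← Finset.sum_neg_distrib]
      apply Finset.sum_le_sum
      intro i _
      have hpos : 0 < 1 - c i ^ 2 := by
        have := hc i
        nlinarith
      have := Real.log_le_sub_one_of_pos hpos
      linarith
    have h2 := (abs_le.mp hGm).1
    linarith

lemma cq_nonneg (q r : ℕ) : 0 ≤ cq q r := by
  unfold cq; positivity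

lemma cq_le (q r : ℕ) (hq : 1 ≤ q) (hr : 1 ≤ r) : cq q r ≤ 1 / q := by
  unfold cq
  rw [one_div]
  have h1 : (1 : ℝ) ≤ q := by exact_mod_cast hq
  apply inv_anti₀ (by linarith)
  calc (q : ℝ) = (q : ℝ) ^ 1 := (pow_one _).symm
    _ ≤ (q : ℝ) ^ r := pow_le_pow_right₀ h1 hr

lemma am_mem {K : ℕ} (B : E K → ℝ) (b0 : ℝ) (x : E K) : 0 ≤ am B b0 x ∧ am B b0 x ≤ 1 :=
  ⟨Real.smoothTransition.nonneg _, Real.smoothTransition.le_one _⟩

/-- the final numerical inequality -/
lemma final_ineq (β C T cc q n : ℝ) (hβ : 0 < β) (hcc : 0 < cc) (hq : 0 < q)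
    (hn : 0 < n) (h1 : 32 * T ≤ β * q) (h2 : 8 * C ≤ β * q) (h3 : 4 * C ≤ β * cc * n) :
    (-(cc ^ 2 * (β * n)) + 4 * (n * cc) * (cc / q * T) + C * cc * (1 + n * cc / q)) / n ≤
      -(β / 4 * cc ^ 2) := by
  rw [div_le_iff₀ hn]
  have e1 : 4 * (n * cc) * (cc / q * T) = (n * cc ^ 2 / q) * (4 * T) := by ring
  have e2 : C * cc * (1 + n * cc / q) = C * cc + (n * cc ^ 2 / q) * C := by ring
  have hp : 0 ≤ n * cc ^ 2 / q := by positivity
  have i1 : (n * cc ^ 2 / q) * (4 * T) ≤ (n * cc ^ 2 / q) * (β * q / 8) :=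
    mul_le_mul_of_nonneg_left (by linarith) hp
  have i2 : (n * cc ^ 2 / q) * C ≤ (n * cc ^ 2 / q) * (β * q / 8) :=
    mul_le_mul_of_nonneg_left (by linarith) hp
  have e3 : (n * cc ^ 2 / q) * (β * q / 8) = n * cc ^ 2 * β / 8 := by
    field_simp
  have i3 : C * cc ≤ β * cc * n / 4 * cc := mul_le_mul_of_nonneg_right (by linarith) hcc.le
  rw [e1, e2]
  rw [e3] at i1 i2
  nlinarith [mul_pos (mul_pos hβ hn) (pow_pos hcc 2)]

theorem gAVG : StmtCLK → StmtHO2 → StmtNU → StmtLIN → StmtENU → StmtBIR → StmtJK → StmtAVG := by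
  intro hCLK hHO hNU hLIN hENU hBIR hJK
  intro N K r s M m μ A b B tau p b0 z0 Φ Φ' h hr1 hrs hs hM hflow hbox hb0 hBp hpair hfull hpM
    hsup hh hrh
  obtain ⟨C, hC1, hclk⟩ := hCLK
  obtain ⟨hμp, hμM, hbas⟩ := hfull
  obtain ⟨β, hβ, hβ1, hbir⟩ := hBIR K s M A b B tau p b0 μ hM.compact hflow hbox hb0 hBp hμp hμM
    hpM hsup
  have hs1 : (1 : WithTop ℕ∞) ≤ s := le_trans (by exact_mod_cast hr1) hrs
  have hz0 : 0 < z0 := hpair.pf.pos
  have hz1 : z0 ≤ 1 / 10 := hpair.pf.le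
  set T : ℝ := ((9 * h) ^ (r + 1))⁻¹ with hT
  have hTpos : 0 < T := by positivity
  obtain ⟨q0, hq0⟩ := exists_nat_gt (1 + 1 / z0 + 2 * C + 32 * T / β + 8 * C / β)
  refine ⟨β / 4, q0, by positivity, ?_⟩
  intro q hq
  have hqR : 1 + 1 / z0 + 2 * C + 32 * T / β + 8 * C / β < (q : ℝ) :=
    lt_of_lt_of_le hq0 (by exact_mod_cast hq)
  have p1 : 0 < 1 / z0 := by positivity
  have p2 : 0 < 32 * T / β := by positivity
  have p3 : 0 < 8 * C / β := by positivity
  have hqpos : (0 : ℝ) < q := by linarith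
  have hq1R : (1 : ℝ) ≤ q := by linarith
  have hq1 : 1 ≤ q := by exact_mod_cast hq1R
  have hcqle := cq_le q r hq1 hr1
  have hcqpos : 0 < cq q r := by unfold cq; positivity
  have hqz : cq q r < z0 := by
    refine lt_of_le_of_lt hcqle ?_
    rw [div_lt_iff₀ hqpos]
    have : 1 / z0 < q := by linarith
    rw [div_lt_iff₀ hz0] at this
    linarith
  have hCcq : C * cq q r ≤ 1 / 2 := by
    have h1 : C * cq q r ≤ C * (1 / q) := mul_le_mul_of_nonneg_left hcqle (by linarith)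
    refine h1.trans ?_
    rw [mul_one_div, div_le_iff₀ hqpos]
    linarith
  have hq32 : 32 * T ≤ β * q := by
    have : 32 * T / β ≤ q := by linarith
    rw [div_le_iff₀ hβ] at this
    linarith
  have hq8 : 8 * C ≤ β * q := by
    have : 8 * C / β ≤ q := by linarith
    rw [div_le_iff₀ hβ] at this
    linarith
  have hMae : ∀ᵐ x ∂m, x ∈ M := by
    rw [ae_iff]
    exact hM.null
  filter_upwards [hbas, hMae] with x hx hxM hBx ht1 ht2
  obtain ⟨hinf, hcen⟩ := hbir x hxM hx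
  obtain ⟨a, ha⟩ := hENU K s M A b B tau p x hflow hbox hxM hBx ht1 ht2 hinf
  obtain ⟨hprob, hsupp, -⟩ := hNU h (r + 1) hh
  have := hprob
  have hsupp' : ∀ᵐ al ∂(nu h (r + 1)), al ∈ Icc (1 : ℝ) (11 / 10) := by
    filter_upwards [hsupp] with al hal
    refine ⟨hal.1, hal.2.trans ?_⟩
    push_cast
    linarith
  obtain ⟨hkap, hgt⟩ := hJK K s M A b B tau p b0 z0 Φ q r hs1 hs hflow hbox hb0 hpair.pf hq1 hqz
  set c : ℕ → ℝ := fun i => cq q r * am B b0 (A (a i) x) with hc
  have hc0 : ∀ i, 0 ≤ c i ∧ c i ≤ cq q r := by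
    intro i
    have := am_mem B b0 (A (a i) x)
    refine ⟨mul_nonneg hcqpos.le this.1, ?_⟩
    calc c i = cq q r * am B b0 (A (a i) x) := rfl
      _ ≤ cq q r * 1 := mul_le_mul_of_nonneg_left this.2 hcqpos.le
      _ = cq q r := mul_one _
  have hc10 : ∀ i, 0 ≤ c i ∧ c i ≤ 1 / 10 := fun i =>
    ⟨(hc0 i).1, (hc0 i).2.trans (hqz.le.trans hz1)⟩
  -- the closeness of the sums
  have hclose : ∀ n : ℕ, ∀ al ∈ Icc (1 : ℝ) (11 / 10),
      |∑ k ∈ Finset.range ⌊al * n⌋₊,
        Real.log (kapT A (uu Φ B tau b0 q r al) ((gT A Φ B tau b0 q r al)^[k] x)) -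
        Lam q a c al ((Finset.range n).filter (fun i => a i < n))| ≤
        C * cq q r * (1 + n * cq q r / q) := by
    intro n al hal
    obtain ⟨hline, hS⟩ := hLIN K s M A b B tau p b0 z0 Φ q r al x a hs hflow hbox hb0 hpair.pf hq1
      hqz hal.1 hal.2 hxM hBx ht1 ht2 ha
    let S : ℕ → ℝ := fun k => Nat.rec (motive := fun _ => ℝ) 0
      (fun _ v => v + 1 / al + th Φ B tau b0 q r al (A v x)) k
    have hS0 : S 0 = 0 := rfl
    have hS1 : ∀ k, S (k + 1) = S k + 1 / al + th Φ B tau b0 q r al (A (S k) x) := fun k => rfl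
    have hSk := hS S hS0 hS1
    have := hclk z0 Φ Φ' hpair q al (cq q r) a c (fun t => th Φ B tau b0 q r al (A t x)) hq1
      hal.1 hal.2 hcqpos.le hqz hCcq hline S hS0 hS1 n
    have heq : ∑ k ∈ Finset.range ⌊al * n⌋₊,
        Real.log (kapT A (uu Φ B tau b0 q r al) ((gT A Φ B tau b0 q r al)^[k] x)) =
        ∑ j ∈ Finset.range ⌊al * n⌋₊,
          Real.log (1 + deriv (fun t => th Φ B tau b0 q r al (A t x)) (S j)) := by
      apply Finset.sum_congr rfl
      intro k _
      rw [(hSk k).2]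
    rw [heq]
    exact this
  -- measurability
  have hgM : ∀ k : ℕ, ∀ al : ℝ, (gT A Φ B tau b0 q r al)^[k] x ∈ M := by
    intro k al
    have hmaps : MapsTo (gT A Φ B tau b0 q r al) M M := by
      intro y hy
      exact hflow.maps 1 (hflow.maps _ hy)
    exact hmaps.iterate k hxM
  have hgk : ∀ k : ℕ, ContinuousOn (fun al : ℝ =>
      kapT A (uu Φ B tau b0 q r al) ((gT A Φ B tau b0 q r al)^[k] x)) (Ioi 0) := by
    intro k
    have h1 : ContinuousOn (fun al : ℝ => (al, (gT A Φ B tau b0 q r al)^[k] x)) (Ioi 0) := by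
      apply continuousOn_id.prodMk
      exact (hgt k).comp (f := fun al : ℝ => ((al, x) : ℝ × E K))
        (continuousOn_id.prodMk continuousOn_const) (fun al hal => ⟨hal, hxM⟩)
    exact hkap.comp h1 (fun al hal => ⟨hal, hgM k al⟩)
  have hmeas : ∀ n : ℕ, AEStronglyMeasurable (fun al : ℝ => ∑ k ∈ Finset.range ⌊al * n⌋₊,
      Real.log (kapT A (uu Φ B tau b0 q r al) ((gT A Φ B tau b0 q r al)^[k] x)))
      (nu h (r + 1)) := fun n =>
    aesm_sum (nu h (r + 1)) (11 / 10) hsupp' n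
      (fun k al => kapT A (uu Φ B tau b0 q r al) ((gT A Φ B tau b0 q r al)^[k] x)) hgk
  -- the conclusion
  obtain ⟨n1, hn1⟩ := exists_nat_gt (4 * C / (β * cq q r))
  filter_upwards [hcen a ha, eventually_ge_atTop (n1 + 1)] with n hn hnn
  have hnpos : (0 : ℝ) < n := by
    have : 1 ≤ n := le_trans (Nat.le_add_left 1 n1) hnn
    exact_mod_cast this
  have hn4 : 4 * C ≤ β * cq q r * n := by
    have h1 : 4 * C / (β * cq q r) ≤ n := by
      refine hn1.le.trans ?_
      have : n1 ≤ n := by omega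
      exact_mod_cast this
    rw [div_le_iff₀ (by positivity)] at h1
    linarith
  set S : Finset ℕ := (Finset.range n).filter (fun i => a i < n) with hSdef
  obtain ⟨hLi, hLm⟩ := mean_lam hHO hNU q r a c h hq1 ha.a0 ha.gap hc10 hh S
  have hmain := integral_le_of_close (nu h (r + 1)) _ (fun al => Lam q a c al S)
    (C * cq q r * (1 + n * cq q r / q)) (hmeas n) hLi (by
      filter_upwards [hsupp'] with al hal
      exact hclose n al hal)
  have hvv : ∫ al, vv A Φ B tau b0 q r n al x ∂(nu h (r + 1)) =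
      (∫ al, (∑ k ∈ Finset.range ⌊al * n⌋₊,
        Real.log (kapT A (uu Φ B tau b0 q r al) ((gT A Φ B tau b0 q r al)^[k] x)))
        ∂(nu h (r + 1))) / n := by
    simp only [vv]
    rw [integral_div]
  rw [hvv]
  have hsumsq : cq q r ^ 2 * (β * n) ≤ ∑ i ∈ S, c i ^ 2 := by
    have : ∑ i ∈ S, c i ^ 2 = cq q r ^ 2 * ∑ i ∈ S, am B b0 (A (a i) x) ^ 2 := by
      rw [Finset.mul_sum]
      apply Finset.sum_congr rfl
      intro i _
      simp only [hc]
      ring
    rw [this]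
    exact mul_le_mul_of_nonneg_left hn (by positivity)
  have hsum : ∑ i ∈ S, c i ≤ n * cq q r := by
    calc ∑ i ∈ S, c i ≤ ∑ _i ∈ S, cq q r := Finset.sum_le_sum (fun i _ => (hc0 i).2)
      _ = S.card * cq q r := by rw [Finset.sum_const, nsmul_eq_mul]
      _ ≤ n * cq q r := by
          apply mul_le_mul_of_nonneg_right _ hcqpos.le
          have : S.card ≤ n := by
            calc S.card ≤ (Finset.range n).card := Finset.card_filter_le _ _
              _ = n := Finset.card_range n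
          exact_mod_cast this
  have hpow : (1 / (9 * (q : ℝ) * h)) ^ (r + 1) = cq q r / q * T := by
    rw [hT]
    unfold cq
    rw [one_div, inv_pow, mul_assoc 9 (q : ℝ) h, mul_left_comm, mul_pow, pow_succ]
    rw [mul_inv, mul_inv]
    ring
  refine le_trans ?_ (final_ineq β C T (cq q r) q n hβ hcqpos hqpos hnpos hq32 hq8 hn4)
  apply div_le_div_of_nonneg_right _ hnpos.le
  refine hmain.trans ?_
  have hTq : 0 ≤ cq q r / q * T := by positivity
  have hstep : 4 * (∑ i ∈ S, c i) * (cq q r / q * T) ≤ 4 * (n * cq q r) * (cq q r / q * T) := by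
    apply mul_le_mul_of_nonneg_right _ hTq
    linarith
  rw [hpow] at hLm
  linarith

end Pool.Agent.Helper7.TOF
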